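import Pool.Agent.Lib.MP_a75e15_an.NR.FIN

/-!
# Non-recurrent Fatou components of polynomial automorphisms of `ℂ²`: one orbit decides (MP_a75e15_an)

`f : ℂ² → ℂ²` is a polynomial automorphism, `Ω` a connected component of its Fatou set with `f^n(Ω) = Ω`, non-recurrent
(for all `Q ∈ Ω` all accumulation points of `(f^{nk}(Q))_k` lie in the boundary of `Ω`; this is weaker than the same for
`(f^j(Q))_j`). No condition on the Jacobian determinant.

THEOREM. Let `Q₀ ∈ Ω` and let `S` be the set of accumulation points of `(f^{nk}(Q₀))_k`. If `S` is finite, or if only some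
periodic point `P` of `f` is an isolated point of `S`, then there is `P ∈ ∂Ω` with `f^{nk}(Q) → P` for every `Q ∈ Ω` (the
conclusion of Q1 for `Ω`).

The paper proof is in the head comments of the files `Pool/Agent/Lib/MP_a75e15_an/NR/*.lean`.
-/

set_option autoImplicit false

open Filter Topology Pool.Agent.Lib.NRF

namespace Pool.Agent.Results.MP_a75e15_an.OneOrbit

theorem result (f : ℂ × ℂ → ℂ × ℂ) (hf : PolyAut f) (Ω : Set (ℂ × ℂ)) (hΩ : FatouComponent f Ω) (n : ℕ) (hn : 1 ≤ n)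
    (hinv : f^[n] '' Ω = Ω) (hnr : NonRecurrentAlong f n Ω) (Q₀ : ℂ × ℂ) (hQ₀ : Q₀ ∈ Ω)
    (h : {x : ℂ × ℂ | MapClusterPt x atTop (fun k : ℕ => f^[n * k] Q₀)}.Finite ∨
      ∃ P : ℂ × ℂ, MapClusterPt P atTop (fun k : ℕ => f^[n * k] Q₀) ∧ (∃ m : ℕ, 1 ≤ m ∧ f^[m] P = P) ∧
        ∃ δ : ℝ, 0 < δ ∧ ∀ x : ℂ × ℂ, MapClusterPt x atTop (fun k : ℕ => f^[n * k] Q₀) → dist x P < δ → x = P) :
    ∃ P ∈ frontier Ω, ∀ Q ∈ Ω, Tendsto (fun k : ℕ => f^[n * k] Q) atTop (𝓝 P) := by
  obtain ⟨-, -, h3, h4⟩ := FIN f hf Ω hΩ n hn hinv hnr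
  rcases h with h | ⟨P, hPS, ⟨m, hm, hPm⟩, δ, hδ, hiso⟩
  · exact h4 Q₀ hQ₀ h
  -- a subsequence converging to `P`
  set u : ℕ → ℂ × ℂ := fun k => f^[n * k] Q₀ with hu
  obtain ⟨φ, hφ, hφ'⟩ := hPS.tendsto_subseq
  obtain ⟨hPn, -⟩ := h3 Q₀ hQ₀ P m hm hPm φ hφ.tendsto_atTop hφ'
  obtain ⟨G, D, hctx⟩ := CXa hf hΩ hn hinv hnr
  have hcont : Continuous (f^[n]) := hctx.sm.continuous
  have hsucc : ∀ k, u (k + 1) = f^[n] (u k) := by
    intro k
    show f^[n * (k + 1)] Q₀ = f^[n] (f^[n * k] Q₀)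
    rw [← Function.iterate_add_apply, Nat.mul_succ, Nat.add_comm]
  -- the whole orbit converges to `P`
  have hconv : Tendsto u atTop (𝓝 P) := by
    by_contra hno
    rw [Metric.tendsto_atTop] at hno
    push Not at hno
    obtain ⟨ε₀, hε₀, hfar⟩ := hno
    have hc := Metric.continuousAt_iff.mp (hcont.continuousAt (x := P)) (δ / 2) (by positivity)
    obtain ⟨δ₀, hδ₀, hc⟩ := hc
    set δ₁ : ℝ := min δ₀ (min ε₀ (δ / 2)) with hδ₁
    have hδ₁0 : 0 < δ₁ := by positivity
    -- exit times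
    have hexit : ∀ N : ℕ, ∃ k, N ≤ k ∧ dist (u k) P < δ₁ ∧ δ₁ ≤ dist (u (k + 1)) P := by
      intro N
      have h5 : ∀ᶠ i in atTop, dist (u (φ i)) P < δ₁ := (Metric.tendsto_nhds.mp hφ') δ₁ hδ₁0
      obtain ⟨i, hi1, hi2⟩ := (h5.and (hφ.tendsto_atTop.eventually_ge_atTop N)).exists
      obtain ⟨j, hj1, hj2⟩ := hfar (φ i)
      have hj3 : δ₁ ≤ dist (u j) P := ((min_le_right _ _).trans (min_le_left _ _)).trans hj2
      by_contra hno
      push Not at hno
      have hall : ∀ l, dist (u (φ i + l)) P < δ₁ := by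
        intro l
        induction l with
        | zero => exact hi1
        | succ l ih => exact hno (φ i + l) (by omega) ih
      have := hall (j - φ i)
      rw [Nat.add_sub_cancel' hj1] at this
      exact absurd this (not_lt.mpr hj3)
    -- the points after the exit lie in a compact annulus
    have hann : ∃ᶠ k in atTop, u k ∈ (Metric.closedBall P (δ / 2) \ Metric.ball P δ₁) := by
      rw [Filter.frequently_atTop]
      intro N
      obtain ⟨k, hk1, hk2, hk3⟩ := hexit N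
      refine ⟨k + 1, by omega, ?_, ?_⟩
      · rw [Metric.mem_closedBall, hsucc k]
        have h6 : dist (f^[n] (u k)) (f^[n] P) < δ / 2 := hc (hk2.trans_le (min_le_left _ _))
        rw [hPn] at h6
        exact h6.le
      · rw [Metric.mem_ball, not_lt]
        exact hk3
    have hcpt : IsCompact (Metric.closedBall P (δ / 2) \ Metric.ball P δ₁) :=
      (isCompact_closedBall P (δ / 2)).diff Metric.isOpen_ball
    obtain ⟨x, hx, hxS⟩ := hcpt.exists_mapClusterPt_of_frequently hann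
    have hx1 : dist x P < δ := by
      have := hx.1
      rw [Metric.mem_closedBall] at this
      linarith
    have hxP := hiso x hxS hx1
    apply hx.2
    rw [hxP]
    exact Metric.mem_ball_self hδ₁0
  apply h4 Q₀ hQ₀
  refine (Set.finite_singleton P).subset ?_
  intro x hx
  rw [Set.mem_setOf_eq] at hx
  rw [Set.mem_singleton_iff]
  obtain ⟨ψ, hψ, hψ'⟩ := hx.tendsto_subseq
  exact tendsto_nhds_unique hψ' (hconv.comp hψ.tendsto_atTop)

end Pool.Agent.Results.MP_a75e15_an.OneOrbit
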