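import Pool.Agent.Lib.MP_a75e15_an.NR.FIN

/-!
# Non-recurrent Fatou components of polynomial automorphisms of `ℂ²`: statistical convergence (MP_a75e15_an)

`f : ℂ² → ℂ²` is a polynomial automorphism, `Ω` a connected component of its Fatou set with `f^n(Ω) = Ω`, non-recurrent
(for all `Q ∈ Ω` all accumulation points of `(f^{nk}(Q))_k` lie in the boundary of `Ω`; this is weaker than the same for
`(f^j(Q))_j`). No condition on the Jacobian determinant.

THEOREM. For every compact `C ⊆ Ω` and `ε > 0`, for all times `k` outside a set of uniform (Banach) density zero the set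
`f^{nk}(C)` lies in the ball of radius `ε` around one point of `∂Ω` which is fixed by `f^n`.

The paper proof is in the head comments of the files `Pool/Agent/Lib/MP_a75e15_an/NR/*.lean`.
-/

set_option autoImplicit false

open Filter Topology Pool.Agent.Lib.NRF

namespace Pool.Agent.Results.MP_a75e15_an.StatisticalConvergence

/-- uniform Lipschitz bound for a bounded family of iterates -/
private theorem sc_lip {F : ℂ × ℂ → ℂ × ℂ} (hF : Differentiable ℂ F) {Q : ℂ × ℂ} {r R : ℝ} (hr : 0 < r) (hR : 0 < R)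
    (hb : ∀ x ∈ Metric.ball Q r, ‖F x‖ ≤ R) {x : ℂ × ℂ} (hx : x ∈ Metric.ball Q r) :
    dist (F x) (F Q) ≤ (2 * R + 1) / r * dist x Q := by
  by_cases hxQ : x = Q
  · rw [hxQ, dist_self, dist_self, mul_zero]
  have hpos : 0 < ‖x - Q‖ := norm_pos_iff.mpr (sub_ne_zero.mpr hxQ)
  set w : ℂ × ℂ := ((‖x - Q‖ : ℝ) : ℂ)⁻¹ • (x - Q) with hw
  have hwn : ‖w‖ = 1 := by
    rw [hw, norm_smul, norm_inv, Complex.norm_real, norm_norm, inv_mul_cancel₀ hpos.ne']
  set g : ℂ → ℂ × ℂ := fun t => F (Q + t • w) with hg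
  have hgd : Differentiable ℂ g := by
    rw [hg]
    exact hF.comp ((differentiable_const Q).add (differentiable_id.smul_const w))
  have hmem : ∀ t ∈ Metric.ball (0 : ℂ) r, Q + t • w ∈ Metric.ball Q r := by
    intro t ht
    rw [Metric.mem_ball, dist_zero_right] at ht
    rw [Metric.mem_ball, dist_eq_norm, add_sub_cancel_left, norm_smul, hwn, mul_one]
    exact ht
  have hmaps : Set.MapsTo g (Metric.ball (0 : ℂ) r) (Metric.closedBall (g 0) (2 * R + 1)) := by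
    intro t ht
    have h1 := hb _ (hmem t ht)
    have h2 := hb _ (hmem 0 (Metric.mem_ball_self hr))
    rw [Metric.mem_closedBall, dist_eq_norm]
    calc ‖g t - g 0‖ ≤ ‖g t‖ + ‖g 0‖ := norm_sub_le _ _
      _ ≤ R + R := add_le_add h1 h2
      _ ≤ 2 * R + 1 := by linarith
  have hxr : ((‖x - Q‖ : ℝ) : ℂ) ∈ Metric.ball (0 : ℂ) r := by
    rw [Metric.mem_ball, dist_zero_right, Complex.norm_real, norm_norm]
    rw [Metric.mem_ball, dist_eq_norm] at hx
    exact hx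
  have h3 := Complex.dist_le_div_mul_dist_of_mapsTo_ball hgd.differentiableOn hmaps hxr
  have e1 : g ((‖x - Q‖ : ℝ) : ℂ) = F x := by
    have hne : ((‖x - Q‖ : ℝ) : ℂ) ≠ 0 := by exact_mod_cast hpos.ne'
    show F (Q + ((‖x - Q‖ : ℝ) : ℂ) • w) = F x
    rw [hw, smul_smul, mul_inv_cancel₀ hne, one_smul, add_sub_cancel]
  have e2 : g 0 = F Q := by
    show F (Q + (0 : ℂ) • w) = F Q
    rw [zero_smul, add_zero]
  have e3 : dist ((‖x - Q‖ : ℝ) : ℂ) 0 = dist x Q := by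
    rw [dist_zero_right, Complex.norm_real, norm_norm, dist_eq_norm]
  rw [e1, e2, e3] at h3
  exact h3

theorem result (f : ℂ × ℂ → ℂ × ℂ) (hf : PolyAut f) (Ω : Set (ℂ × ℂ)) (hΩ : FatouComponent f Ω) (n : ℕ) (hn : 1 ≤ n)
    (hinv : f^[n] '' Ω = Ω) (hnr : NonRecurrentAlong f n Ω) (C : Set (ℂ × ℂ)) (hC : IsCompact C) (hCΩ : C ⊆ Ω)
    (ε : ℝ) (hε : 0 < ε) :
    BD0 {k : ℕ | ¬ ∃ P ∈ bdFix f n Ω, ∀ Q ∈ C, dist (f^[n * k] Q) P < ε} := by
  obtain ⟨G, D, h⟩ := CXa hf hΩ hn hinv hnr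
  obtain ⟨Q₀, hQ₀⟩ : Ω.Nonempty := by
    obtain ⟨z, hz, hz'⟩ := hΩ
    rw [hz']
    exact ⟨z, mem_connectedComponentIn hz⟩
  obtain ⟨h1, h2, -, -⟩ := FIN f hf Ω hΩ n hn hinv hnr
  have hit : ∀ k, f^[n * k] = (f^[n])^[k] := fun k => Function.iterate_mul f n k
  have hdiff : ∀ k, Differentiable ℂ (f^[n * k]) := by
    intro k
    rw [hit]
    exact (h.sm.differentiable (by norm_num)).iterate k
  -- the radius of equicontinuity
  have hrad : ∀ Q ∈ Ω, ∃ ρ : ℝ, 0 < ρ ∧ ∀ x ∈ Metric.ball Q ρ, ∀ k : ℕ, dist (f^[n * k] x) (f^[n * k] Q) < ε / 3 := by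
    intro Q hQ
    obtain ⟨r, hr, R, hR, -, hb⟩ := h.bdd Q hQ
    refine ⟨min r (ε / 3 * (r / (2 * R + 1))), by positivity, ?_⟩
    intro x hx k
    have hxr : x ∈ Metric.ball Q r := Metric.ball_subset_ball (min_le_left _ _) hx
    have h3 := sc_lip (hdiff k) hr hR (fun y hy => by rw [hit]; exact hb y hy k) hxr
    refine h3.trans_lt ?_
    have hx2 : dist x Q < ε / 3 * (r / (2 * R + 1)) := by
      rw [Metric.mem_ball] at hx
      exact hx.trans_le (min_le_right _ _)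
    have hpos : 0 < (2 * R + 1) / r := by positivity
    calc (2 * R + 1) / r * dist x Q < (2 * R + 1) / r * (ε / 3 * (r / (2 * R + 1))) :=
          mul_lt_mul_of_pos_left hx2 hpos
      _ = ε / 3 := by field_simp
  choose! ρ hρ hρ' using hrad
  obtain ⟨T, hT, hcov⟩ := hC.elim_nhds_subcover (fun Q => Metric.ball Q (ρ Q))
    (fun Q hQ => Metric.ball_mem_nhds Q (hρ Q (hCΩ hQ)))
  have hA : BD0 {k : ℕ | ∀ P ∈ bdFix f n Ω, ε / 3 ≤ dist (f^[n * k] Q₀) P} := h1 Q₀ hQ₀ (ε / 3) (by positivity)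
  have hB : BD0 (⋃ Q ∈ T, {k : ℕ | ε / 3 ≤ dist (f^[n * k] Q₀) (f^[n * k] Q)}) :=
    BD0.biUnion T _ fun Q hQ => h2 Q₀ hQ₀ Q (hCΩ (hT Q hQ)) (ε / 3) (by positivity)
  refine (hA.union hB).mono ?_
  intro k hk
  by_contra hcon
  rw [Set.mem_union, not_or] at hcon
  obtain ⟨hc1, hc2⟩ := hcon
  apply hk
  have hc1' : ∃ P ∈ bdFix f n Ω, dist (f^[n * k] Q₀) P < ε / 3 := by
    by_contra hno
    push Not at hno
    exact hc1 hno
  obtain ⟨P, hP, hP'⟩ := hc1'
  refine ⟨P, hP, fun Q hQ => ?_⟩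
  have hQc := hcov hQ
  rw [Set.mem_iUnion₂] at hQc
  obtain ⟨Q', hQ', hQb⟩ := hQc
  have h4 : dist (f^[n * k] Q) (f^[n * k] Q') < ε / 3 := hρ' Q' (hCΩ (hT Q' hQ')) Q hQb k
  have h5 : dist (f^[n * k] Q₀) (f^[n * k] Q') < ε / 3 := by
    by_contra hno
    push Not at hno
    apply hc2
    rw [Set.mem_iUnion₂]
    exact ⟨Q', hQ', hno⟩
  calc dist (f^[n * k] Q) P ≤ dist (f^[n * k] Q) (f^[n * k] Q') + dist (f^[n * k] Q') P := dist_triangle _ _ _
    _ ≤ dist (f^[n * k] Q) (f^[n * k] Q') + (dist (f^[n * k] Q') (f^[n * k] Q₀) + dist (f^[n * k] Q₀) P) := by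
        gcongr
        exact dist_triangle _ _ _
    _ < ε / 3 + (ε / 3 + ε / 3) := by
        rw [dist_comm (f^[n * k] Q') (f^[n * k] Q₀)]
        exact add_lt_add h4 (add_lt_add h5 hP')
    _ = ε := by ring

end Pool.Agent.Results.MP_a75e15_an.StatisticalConvergence
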